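import Pool.Agent.helper4.EC.Spec

set_option autoImplicit false

namespace Pool.Agent.helper4.EC

open Finset

universe u

/-- the walk `a, b, c, d, e, e, ...` -/
def C4_w {V : Type u} (a b c d e : V) : ℕ → V
  | 0 => a
  | 1 => b
  | 2 => c
  | 3 => d
  | _ => e

theorem C4 (h1 : W1_stmt.{u}) : C4_stmt.{u} := by
  intro V G hG
  refine ⟨?_, ?_⟩
  · intro a b c d hab hbc hcd hda hac hbd
    by_contra hcon
    push Not at hcon
    obtain ⟨h2, h3⟩ := hcon
    have hw : TW G 3 (C4_w a b c d d) := by
      refine ⟨?_, ?_⟩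
      · intro i hi
        have hi' : i = 0 ∨ i = 1 ∨ i = 2 := by omega
        rcases hi' with rfl | rfl | rfl
        · exact hab
        · exact hbc
        · exact hcd
      · intro i hi
        have hi' : i = 0 ∨ i = 1 := by omega
        rcases hi' with rfl | rfl
        · exact ⟨hac, h2⟩
        · exact ⟨hbd, h3⟩
    exact (h1 V G hG 3 _ hw 0 3 (by norm_num) le_rfl).2 hda.symm
  · intro a b c d e hab hbc hcd hde hea hac nac hbd nbd hce nce
    have hw : TW G 4 (C4_w a b c d e) := by
      refine ⟨?_, ?_⟩
      · intro i hi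
        have hi' : i = 0 ∨ i = 1 ∨ i = 2 ∨ i = 3 := by omega
        rcases hi' with rfl | rfl | rfl | rfl
        · exact hab
        · exact hbc
        · exact hcd
        · exact hde
      · intro i hi
        have hi' : i = 0 ∨ i = 1 ∨ i = 2 := by omega
        rcases hi' with rfl | rfl | rfl
        · exact ⟨hac, nac⟩
        · exact ⟨hbd, nbd⟩
        · exact ⟨hce, nce⟩
    exact (h1 V G hG 4 _ hw 0 4 (by norm_num) le_rfl).2 hea.symm

end Pool.Agent.helper4.EC
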